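import Pool.Agent.Lead.Ont

namespace Pool.Agent.Results.MP_c90ce4_lc.Q1

open Pool.Agent.Lead.Mod Pool.Agent.Lead.Mod.Fm

/-- The logic S4.2. -/
def S42 : Set Fm := Ext {imp (box (var 0)) (var 0), imp (box (var 0)) (box (box (var 0))),
  imp (dia (box (var 0))) (box (dia (var 0)))}

lemma hN : Normal S42 := ext_normal _

lemma hT (a : Fm) : imp (box a) a ∈ S42 := by
  simpa [Fm.subst] using hN.subst (fun _ => a) (imp (box (var 0)) (var 0)) (mem_ext (by simp))

lemma h4 (a : Fm) : imp (box a) (box (box a)) ∈ S42 := by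
  simpa [Fm.subst] using hN.subst (fun _ => a) (imp (box (var 0)) (box (box (var 0))))
    (mem_ext (by simp))

theorem result (p : ℕ → ℕ) (hp : Function.Injective p) :
    ∃ χ : Fm, sig χ ⊆ {0, 1} ∧ ∀ φ : LF, L1 φ ↔ φ.tr χ p ∈ S42 := by
  refine ⟨FB, sig_FB, fun φ => ⟨ont_sound hN hT h4 p,
    ont_faithful (fun x y => x = none ∨ y ≠ none) (frame_ext _ ?_) (fun V a => ?_) p hp⟩⟩
  · rintro _ (rfl | rfl | rfl) V w H
    · exact H w (by tauto)
    · intro v hv u hu
      exact H u (by tauto)
    · simp only [sat_box, sat_dia, sat_var] at H ⊢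
      obtain ⟨v, -, h⟩ := H
      exact fun u _ => ⟨some 0, by simp, h _ (by simp)⟩
  · simp only [bb, sat_box, sat_dia]
    constructor
    · intro H c
      obtain ⟨v, -, h⟩ := H none (Or.inl trivial)
      exact h _ (by simp)
    · intro H v _
      refine ⟨some 0, by simp, fun u hu => ?_⟩
      cases u with
      | none => simp at hu
      | some c => exact H c

end Pool.Agent.Results.MP_c90ce4_lc.Q1
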